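import Pool.Agent.H39.QE.Fin
import Pool.Agent.H40.QL.StL
import Pool.Agent.H1.QG.Fin
import Pool.Agent.H91.QU.Fin

/-!
MP_bcc40c_pr, Q2 (full answer, positive): for a uniform triangulation `T` with `2 n` faces and genus `g n`, `g n / n → θ` in
`(0, 1/2)`, and a uniform vertex `x` of `T`, the planarity radius of `x` divided by `log n` converges in probability to `D / 2`.

The model is the one of the frozen statement S19605: `σ = p.1` (its cycles are the vertices), `α = p.2` (edges), `σ * α` (faces, all
of length 3), on the `6 n` darts; `G n p` is the graph of the triangulation.  `Tendsto` of the mean proportion of the vertices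
with `ε < |R / log n - D / 2|` to `0` is the convergence in probability, for a uniform vertex of the uniform triangulation.

Balls: the faces around one vertex are glued in a cycle, and the two faces of an edge are around both of its ends, so for
`r ≥ 1` the surface glued from the faces of `qball` is connected; it has genus 0 if and only if
`V + b - E + F = 2` (`V` interior vertices, `b` boundary components, `E` glued pairs of sides, `F` faces).
-/

set_option autoImplicit false

namespace Pool.Agent.Results.MP_bcc40c_pr.PlanarityRadius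

/-- the darts of the faces which have a vertex at distance at most `r - 1` from the vertex `a`; the distance is that of the
graph `G`, the face of the dart `d` has the three darts `d`, `σ (α d)`, `σ (α (σ (α d)))` -/
noncomputable def qball {n : ℕ} (σ α : Equiv.Perm (Fin (6 * n)))
    (G : SimpleGraph (Quotient (Equiv.Perm.SameCycle.setoid σ)))
    (a : Quotient (Equiv.Perm.SameCycle.setoid σ)) (r : ℕ) : Finset (Fin (6 * n)) :=
  open Classical in
  Finset.univ.filter fun d => ∃ e, (e = d ∨ e = σ (α d) ∨ e = σ (α (σ (α d)))) ∧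
    G.dist a (Quotient.mk (Equiv.Perm.SameCycle.setoid σ) e) < r

/-- the surface glued from the faces in `F` (two sides `d`, `α d` are glued if both are in `F`): one step around an interior
vertex, or along the boundary -/
def qstep {n : ℕ} (σ α : Equiv.Perm (Fin (6 * n))) (F : Finset (Fin (6 * n))) (d : Fin (6 * n)) :
    Fin (6 * n) := σ (α (if d ∈ F ∧ α d ∈ F then α d else d))

/-- number of interior vertices plus number of boundary components of the surface glued from the faces in `F` -/
noncomputable def qvb {n : ℕ} (σ α : Equiv.Perm (Fin (6 * n))) (F : Finset (Fin (6 * n))) : ℕ :=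
  Nat.card (Quot fun a b : {d // d ∈ F} => (b : Fin (6 * n)) = qstep σ α F a)

/-- the (connected) surface glued from the faces in `F` has genus zero: with `V` interior vertices, `b` boundary components,
`E` glued pairs of sides and `#F / 3` faces, `V + b - E + #F / 3 = 2` -/
def QPlan {n : ℕ} (σ α : Equiv.Perm (Fin (6 * n))) (F : Finset (Fin (6 * n))) : Prop :=
  6 * qvb σ α F + 2 * F.card = 3 * (F.filter fun d => α d ∈ F).card + 12

/-- the planarity radius of the vertex `a`: the largest `r ≥ 1` such that the ball of radius `r` is planar -/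
noncomputable def QRplan {n : ℕ} (σ α : Equiv.Perm (Fin (6 * n)))
    (G : SimpleGraph (Quotient (Equiv.Perm.SameCycle.setoid σ)))
    (a : Quotient (Equiv.Perm.SameCycle.setoid σ)) : ℕ :=
  sSup {r | 1 ≤ r ∧ QPlan σ α (qball σ α G a r)}

theorem result :
  ∀ θ : ℝ, 0 < θ → θ < 1/2 →
  ∀ g : ℕ → ℕ, Filter.Tendsto (fun n : ℕ => (g n : ℝ) / (n : ℝ)) Filter.atTop (nhds θ) →
  ∀ h : ℝ, 0 < h → h < 1/4 →
    (1 - 2*θ) / 6 = h / ((1 + 8*h) * Real.sqrt (1 - 4*h)) *
      Real.log ((1 + Real.sqrt (1 - 4*h)) / (1 - Real.sqrt (1 - 4*h))) →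
  ∀ S : (n : ℕ) → Finset (Equiv.Perm (Fin (6*n)) × Equiv.Perm (Fin (6*n))),
    (∀ (n : ℕ) (p : Equiv.Perm (Fin (6*n)) × Equiv.Perm (Fin (6*n))),
      p ∈ S n ↔
        ((∀ x : Fin (6*n), p.2 x ≠ x ∧ p.2 (p.2 x) = x) ∧
         (∀ x : Fin (6*n), (p.1 * p.2) x ≠ x ∧ ((p.1 * p.2)^3) x = x) ∧
         (∀ x y : Fin (6*n), ∃ w ∈ Subgroup.closure ({p.1, p.2} : Set (Equiv.Perm (Fin (6*n)))), w x = y) ∧
         Nat.card (Quotient (Equiv.Perm.SameCycle.setoid p.1)) + 2 * g n = n + 2)) →
  ∀ G : (n : ℕ) → (p : Equiv.Perm (Fin (6*n)) × Equiv.Perm (Fin (6*n))) →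
      SimpleGraph (Quotient (Equiv.Perm.SameCycle.setoid p.1)),
    (∀ (n : ℕ) (p : Equiv.Perm (Fin (6*n)) × Equiv.Perm (Fin (6*n)))
       (a b : Quotient (Equiv.Perm.SameCycle.setoid p.1)),
      (G n p).Adj a b ↔
        (a ≠ b ∧ ∃ x : Fin (6*n),
          ((Quotient.mk (Equiv.Perm.SameCycle.setoid p.1) x = a ∧
            Quotient.mk (Equiv.Perm.SameCycle.setoid p.1) (p.2 x) = b) ∨
           (Quotient.mk (Equiv.Perm.SameCycle.setoid p.1) x = b ∧
            Quotient.mk (Equiv.Perm.SameCycle.setoid p.1) (p.2 x) = a)))) →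
  ∀ ε : ℝ, 0 < ε →
    Filter.Tendsto
      (fun n : ℕ =>
        (∑ p ∈ S n,
          (Nat.card {a : Quotient (Equiv.Perm.SameCycle.setoid p.1) //
              ε < |(QRplan p.1 p.2 (G n p) a : ℝ) / Real.log (n : ℝ)
                    - 1 / 2 * (1 / (-Real.log ((1 - 2*h - Real.sqrt (1 - 4*h)) / (2*h))))|} : ℝ)
            / (Nat.card (Quotient (Equiv.Perm.SameCycle.setoid p.1)) : ℝ))
          / ((S n).card : ℝ))
      Filter.atTop (nhds 0) :=
  QE39.fin QL40.stL QG1.stG QU91.stU

end Pool.Agent.Results.MP_bcc40c_pr.PlanarityRadius
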