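import Pool.Agent.H39.UN.FinA

/-!
MP_bcc40c_pr, Q1: the lower halves of both convergences (typical distance and diameter), with the
sharp constants `D` and `3 D`, without any extra hypothesis.  Notation (permutations, vertices, graph,
distance, diameter) as in the frozen statement S19605: `p = (σ, α)`, the vertices are the cycles of `σ`.
Proof: `Pool/Agent/H39/HG` (see `PLAN.md` there) and `Pool/Agent/H39/UN` (the ratio of the numbers
of triangulations and the number of leaves).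
-/

set_option autoImplicit false

namespace Pool.Agent.Results.MP_bcc40c_pr.SharpLower

theorem result :
  ∀ θ : ℝ, 0 < θ → θ < 1/2 →
  ∀ g : ℕ → ℕ, Filter.Tendsto (fun n : ℕ => (g n : ℝ) / (n : ℝ)) Filter.atTop (nhds θ) →
  ∀ h : ℝ, 0 < h → h < 1/4 →
    (1 - 2*θ) / 6 = h / ((1 + 8*h) * Real.sqrt (1 - 4*h)) *
      Real.log ((1 + Real.sqrt (1 - 4*h)) / (1 - Real.sqrt (1 - 4*h))) →
  ∀ S : (n : ℕ) → Finset (Equiv.Perm (Fin (6*n)) × Equiv.Perm (Fin (6*n))),
    (∀ (n : ℕ) (p : Equiv.Perm (Fin (6*n)) × Equiv.Perm (Fin (6*n))),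
      p ∈ S n ↔
        ((∀ x : Fin (6*n), p.2 x ≠ x ∧ p.2 (p.2 x) = x) ∧
         (∀ x : Fin (6*n), (p.1 * p.2) x ≠ x ∧ ((p.1 * p.2)^3) x = x) ∧
         (∀ x y : Fin (6*n), ∃ w ∈ Subgroup.closure ({p.1, p.2} : Set (Equiv.Perm (Fin (6*n)))), w x = y) ∧
         Nat.card (Quotient (Equiv.Perm.SameCycle.setoid p.1)) + 2 * g n = n + 2)) →
  ∀ G : (n : ℕ) → (p : Equiv.Perm (Fin (6*n)) × Equiv.Perm (Fin (6*n))) →
      SimpleGraph (Quotient (Equiv.Perm.SameCycle.setoid p.1)),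
    (∀ (n : ℕ) (p : Equiv.Perm (Fin (6*n)) × Equiv.Perm (Fin (6*n)))
       (a b : Quotient (Equiv.Perm.SameCycle.setoid p.1)),
      (G n p).Adj a b ↔
        (a ≠ b ∧ ∃ x : Fin (6*n),
          ((Quotient.mk (Equiv.Perm.SameCycle.setoid p.1) x = a ∧
            Quotient.mk (Equiv.Perm.SameCycle.setoid p.1) (p.2 x) = b) ∨
           (Quotient.mk (Equiv.Perm.SameCycle.setoid p.1) x = b ∧
            Quotient.mk (Equiv.Perm.SameCycle.setoid p.1) (p.2 x) = a)))) →
  ∀ ε : ℝ, 0 < ε →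
    Filter.Tendsto
      (fun n : ℕ =>
        (∑ p ∈ S n,
          (Nat.card {q : Quotient (Equiv.Perm.SameCycle.setoid p.1) ×
              Quotient (Equiv.Perm.SameCycle.setoid p.1) //
              ((G n p).dist q.1 q.2 : ℝ) ≤
                (1 - ε) * (1 / (-Real.log ((1 - 2*h - Real.sqrt (1 - 4*h)) / (2*h)))) *
                  Real.log (n : ℝ)} : ℝ)
            / ((Nat.card (Quotient (Equiv.Perm.SameCycle.setoid p.1)) : ℝ) ^ 2))
          / ((S n).card : ℝ))
      Filter.atTop (nhds 0)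
    ∧
    Filter.Tendsto
      (fun n : ℕ =>
        (Nat.card {p : Equiv.Perm (Fin (6*n)) × Equiv.Perm (Fin (6*n)) //
            p ∈ S n ∧ ((G n p).diam : ℝ) ≤
              3 * (1 - ε) * (1 / (-Real.log ((1 - 2*h - Real.sqrt (1 - 4*h)) / (2*h)))) *
                Real.log (n : ℝ)} : ℝ)
          / ((S n).card : ℝ))
      Filter.atTop (nhds 0) := by
  exact UN39.finA

end Pool.Agent.Results.MP_bcc40c_pr.SharpLower
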